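import Pool.Agent.KS6_56.FI.E

/-!
# MP_8ebff2_pr: factors of i.i.d. are not closed on Cayley graphs of groups with free subgroups

(1) Let `G` be a graph on a countable set, and `H` an `Aut(G)`-invariant regular forest of degree at
least three on the same vertices. If a group of automorphisms of `G` acts freely, and one of its
orbits contains a component of `H`, then the class of the factor of i.i.d. processes on `G` is not
closed under `d̄₂`-limits. (For the regular trees take `H = G`.)

(2) Every finitely generated group which contains a free group of rank two has such Cayley graphs;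
the finite generating set may be chosen to contain any given finite set of elements.
-/

set_option autoImplicit false

namespace Pool.Agent.Results.MP_8ebff2_pr.FreeSubgroups

open Pool.Agent.KS6_56.FI

/-- **Main theorem.**

(1) Let `G`, `H` be graphs on a countable set `V`, where `H` is a forest all of whose vertices have
degree `d ≥ 3` and every automorphism of `G` is an automorphism of `H`. Let the group `Λ` act freely
on `V` by automorphisms of `G`, and let the component of `v₀` in `H` be contained in the orbit of
`v₀`. Then the factors of i.i.d. on `G` are not closed under `d̄₂`-limits, and there is a limit that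
is not even a `Λ`-factor of i.i.d. labels in any probability space.

(2) Let `Γ` be a finitely generated group that contains a free group of rank two, and `A` a finite
subset of `Γ \ {1}`. There is a finite symmetric set `S` of generators of `Γ` with `A ⊆ S` such that
this happens on the Cayley graph of `Γ` and `S` (connected, locally finite, transitive), for the
group of the right translations.

(3) It also happens on the regular trees of all degrees `d ≥ 3`, for a simply transitive group. -/
theorem result :
    (∀ (V : Type) [Countable V] (G H : SimpleGraph V) (d : ℕ) (Λ : Type) [Group Λ]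
      [MulAction Λ V] (v₀ : V), Forest H d → Inv G H → ActsOn Λ G → FreeAct Λ V →
      (∀ w, H.Reachable v₀ w → ∃ g : Λ, g • v₀ = w) → NotClosed G Λ) ∧
    (∀ (Γ : Type) [Group Γ] [Group.FG Γ] (φ : FreeGroup (Fin 2) →* Γ), Function.Injective φ →
      ∀ A : Finset Γ, (1 : Γ) ∉ A → ∃ S : Finset Γ, A ⊆ S ∧ (1 : Γ) ∉ S ∧ (∀ s ∈ S, s⁻¹ ∈ S) ∧
        (Cay S).Connected ∧ (∀ v, ((Cay S).neighborSet v).Finite) ∧
        (∀ v w, ∃ γ : Cay S ≃g Cay S, γ v = w) ∧ NotClosed (Cay S) Γᵐᵒᵖ) ∧
    ∀ d : ℕ, 3 ≤ d → ∃ (V : Type) (_ : Countable V) (G : SimpleGraph V)
      (Λ : Type) (_ : Group Λ) (_ : MulAction Λ V), G.IsTree ∧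
      (∀ v, (G.neighborSet v).ncard = d) ∧ ActsOn Λ G ∧ FreeAct Λ V ∧
      (∀ v w : V, ∃ g : Λ, g • v = w) ∧ NotClosed G Λ := by
  refine ⟨?_, ?_, exists_tree⟩
  · intro V _ G H d Λ _ _ v₀ hF hG hact hfree hcomp
    exact notClosed hF hG hact hfree v₀ hcomp
  · intro Γ _ _ φ hφ A hA
    obtain ⟨S, h1, h2, h3, h4, h5⟩ := exists_cayley φ hφ A hA
    exact ⟨S, h1, h2, h3, h4, Cay_finite h2 h3, Cay_transitive S, h5⟩

end Pool.Agent.Results.MP_8ebff2_pr.FreeSubgroups
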